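import Pool.Agent.H71.PW.Fin

/-! The exponents `w_n(ξ^k)`, `w_n^*(ξ^k)` for all `k ≤ K` and `n ≤ N` at once. The definitions
`mahlerExp`, `koksmaExp`, `height`, `IsIntMinpoly` are in `Pool.Agent.H71.PW.Base`, and `HasGaps`,
`HasExponents`, `Compatible`, `DivMonotone` in `Pool.Agent.H71.PW.Fin`. -/

namespace Pool.Agent.Results.MP_9b3446_nt.AllPowersAtOnce

open Pool.Agent.H71.PW

/-- Let `K, N ≥ 1`.
(1) Let `δ_1, …, δ_K ≥ 0` with `δ_1 = 0` and `δ_k ≤ δ_{kd}` whenever `kd ≤ K`. Every nonempty open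
interval inside `[1/2, 1]` contains uncountably many transcendental `ξ` with
`w_{kn}(ξ) = w_n(ξ^k) + δ_k` and `w_{kn}^*(ξ) = w_n^*(ξ^k) + δ_k`, all four exponents finite, for
all `k ≤ K` and `n ≤ N` at once.
(2) Conversely, if `N ≥ K` and some real transcendental `ξ` has this property, then `δ_1 = 0` and
`δ_k ≤ δ_{kd}` whenever `kd ≤ K`.
(3) Let `V_1, …, V_K ≥ 2K²N + K` with `V_i + 1 ≤ (j / gcd(i,j)) (V_j + 1)` for all `i, j ≤ K`. Every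
nonempty open interval inside `[1/2, 1]` contains uncountably many transcendental `ξ` with
`w_n(ξ^k) = w_n^*(ξ^k) = V_k` for all `k ≤ K` and `n ≤ N` at once.
(4) Conversely, if `N ≥ K`, `V_k ≥ 0` and some real transcendental `ξ` has
`w_n(ξ^k) = w_n^*(ξ^k) = V_k` for all `k ≤ K` and `n ≤ N`, then
`V_i + 1 ≤ (j / gcd(i,j)) (V_j + 1)` for all `i, j ≤ K`. -/
theorem result :
    (∀ K N : ℕ, 1 ≤ K → 1 ≤ N → ∀ δ : ℕ → ℝ, (∀ k, 1 ≤ k → k ≤ K → 0 ≤ δ k) →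
      DivMonotone K δ → ∀ a b : ℝ, 1 / 2 ≤ a → a < b → b ≤ 1 →
        ¬ {ξ : ℝ | a < ξ ∧ ξ < b ∧ Transcendental ℤ ξ ∧ HasGaps K N δ ξ}.Countable) ∧
    (∀ K N : ℕ, 1 ≤ K → K ≤ N → ∀ δ : ℕ → ℝ, (∀ k, 1 ≤ k → k ≤ K → 0 ≤ δ k) →
      (∃ ξ : ℝ, Transcendental ℤ ξ ∧ HasGaps K N δ ξ) → DivMonotone K δ) ∧
    (∀ K N : ℕ, 1 ≤ K → 1 ≤ N → ∀ V : ℕ → ℝ,
      (∀ k, 1 ≤ k → k ≤ K → 2 * (K : ℝ) ^ 2 * N + K ≤ V k) →
      Compatible K V → ∀ a b : ℝ, 1 / 2 ≤ a → a < b → b ≤ 1 →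
        ¬ {ξ : ℝ | a < ξ ∧ ξ < b ∧ Transcendental ℤ ξ ∧ HasExponents K N V ξ}.Countable) ∧
    (∀ K N : ℕ, 1 ≤ K → K ≤ N → ∀ V : ℕ → ℝ, (∀ k, 1 ≤ k → k ≤ K → 0 ≤ V k) →
      (∃ ξ : ℝ, Transcendental ℤ ξ ∧ HasExponents K N V ξ) → Compatible K V) :=
  ⟨fun K N hK hN δ hδ hm a b ha hab hb => gap_suff K N hK hN δ hδ hm a b ha hab hb,
    fun K N hK hKN δ hδ ⟨ξ, _, h⟩ => gap_necessary K N hK hKN δ hδ ξ h,
    fun K N hK hN V hbig hV a b ha hab hb => spec_suff K N hK hN V hbig hV a b ha hab hb,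
    fun K N _ hKN V hV ⟨ξ, hξ, h⟩ => spec_nec K N hKN V hV ξ hξ h⟩

end Pool.Agent.Results.MP_9b3446_nt.AllPowersAtOnce
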